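import Mathlib

/-!
# The coefficient of degree `k` of `(1+t)^(2k+1) (1-t)^2 ∏ (1-t^(d_i))`
-/

set_option autoImplicit false

open Polynomial

namespace Pool.Agent.U354.Sqf

lemma choose_ineq (m : ℕ) : (2 * (m + 3) + 1).choose (m + 3) + (2 * (m + 3) + 1).choose (m + 1) ≤
    2 * (2 * (m + 3) + 1).choose (m + 2) := by
  set N := 2 * (m + 3) + 1 with hN
  have h1 := Nat.choose_succ_right_eq N (m + 2)
  have h2 := Nat.choose_succ_right_eq N (m + 1)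
  have e1 : N - (m + 2) = m + 5 := by omega
  have e2 : N - (m + 1) = m + 6 := by omega
  rw [e1] at h1
  rw [e2] at h2
  have h3 : m + 2 + 1 = m + 3 := rfl
  have h4 : m + 1 + 1 = m + 2 := rfl
  rw [h3] at h1
  rw [h4] at h2
  set A := N.choose (m + 3)
  set B := N.choose (m + 2)
  set D := N.choose (m + 1)
  have hp : 0 < (m + 3) * (m + 6) := by positivity
  refine Nat.le_of_mul_le_mul_left ?_ hp
  have e3 : (m + 3) * (m + 6) * (A + D) = (m + 6) * (A * (m + 3)) + (m + 3) * (D * (m + 6)) := by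
    ring
  rw [e3, h1, ← h2]
  nlinarith [Nat.zero_le B, Nat.zero_le (m * B)]

lemma prod_high {ι : Type*} [DecidableEq ι] (s : Finset ι) (d : ι → ℕ) (k : ℕ)
    (h : ∀ i ∈ s, k < d i) : ∃ W : ℤ[X], ∏ i ∈ s, (1 - X ^ d i : ℤ[X]) = 1 + X ^ (k + 1) * W := by
  induction s using Finset.induction_on with
  | empty => exact ⟨0, by simp⟩
  | insert i s hi ih =>
    obtain ⟨W, hW⟩ := ih fun j hj => h j (Finset.mem_insert_of_mem hj)
    obtain ⟨e, he⟩ := Nat.exists_eq_add_of_lt (h i (Finset.mem_insert_self i s))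
    rw [Finset.prod_insert hi, hW, he]
    refine ⟨W - X ^ e - X ^ (k + 1) * X ^ e * W, ?_⟩
    ring

lemma coeff_nonpos {r : ℕ} (d : Fin r → ℕ) (k : ℕ) (i₀ i₁ : Fin r) (hk : 3 ≤ k) (h01 : i₀ ≠ i₁)
    (h0 : d i₀ = 1) (h1 : d i₁ = 1) (hd : ∀ i, i ≠ i₀ → i ≠ i₁ → k < d i) :
    ((1 + X) ^ (2 * k + 1) * ∏ i, (1 - X ^ d i) : ℤ[X]).coeff k ≤ 0 := by
  obtain ⟨m, rfl⟩ := Nat.exists_eq_add_of_le hk
  rw [show 3 + m = m + 3 by ring] at *
  obtain ⟨W, hW⟩ := prod_high ((Finset.univ.erase i₀).erase i₁) d (m + 3) (fun i hi => by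
    rw [Finset.mem_erase, Finset.mem_erase] at hi
    exact hd i hi.2.1 hi.1)
  have e1 : ∏ i, (1 - X ^ d i : ℤ[X]) = (1 - X) * ((1 - X) * (1 + X ^ (m + 3 + 1) * W)) := by
    rw [← Finset.mul_prod_erase Finset.univ _ (Finset.mem_univ i₀),
      ← Finset.mul_prod_erase (Finset.univ.erase i₀) _ (Finset.mem_erase.2 ⟨h01.symm,
        Finset.mem_univ i₁⟩), hW, h0, h1, pow_one]
  rw [e1]
  have e2 : ((1 + X) ^ (2 * (m + 3) + 1) * ((1 - X) * ((1 - X) * (1 + X ^ (m + 3 + 1) * W))) :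
      ℤ[X]) = (1 + X) ^ (2 * (m + 3) + 1) - (1 + X) ^ (2 * (m + 3) + 1) * X -
        (1 + X) ^ (2 * (m + 3) + 1) * X + (1 + X) ^ (2 * (m + 3) + 1) * X ^ 2 +
        ((1 + X) ^ (2 * (m + 3) + 1) * (1 - X) * (1 - X) * W) * X ^ (m + 3 + 1) := by
    ring
  have c1 : ((1 + X) ^ (2 * (m + 3) + 1) * X : ℤ[X]).coeff (m + 3) =
      ((2 * (m + 3) + 1).choose (m + 2) : ℤ) := by
    rw [show m + 3 = (m + 2) + 1 by ring, coeff_mul_X, coeff_one_add_X_pow]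
  have c2 : ((1 + X) ^ (2 * (m + 3) + 1) * X ^ 2 : ℤ[X]).coeff (m + 3) =
      ((2 * (m + 3) + 1).choose (m + 1) : ℤ) := by
    rw [coeff_mul_X_pow', if_pos (by omega), show m + 3 - 2 = m + 1 by omega,
      coeff_one_add_X_pow]
  have c3 : (((1 + X) ^ (2 * (m + 3) + 1) * (1 - X) * (1 - X) * W) * X ^ (m + 3 + 1) :
      ℤ[X]).coeff (m + 3) = 0 := by
    rw [coeff_mul_X_pow', if_neg (by omega)]
  rw [e2, coeff_add, coeff_add, coeff_sub, coeff_sub, c1, c2, c3, coeff_one_add_X_pow]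
  have h5 : (((2 * (m + 3) + 1).choose (m + 3) + (2 * (m + 3) + 1).choose (m + 1) : ℕ)
    : ℤ) ≤ ((2 * (2 * (m + 3) + 1).choose (m + 2) : ℕ) : ℤ) := by exact_mod_cast choose_ineq m
  push_cast at h5
  linarith

end Pool.Agent.U354.Sqf
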