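import Pool.Agent.U354.Sqf.Lagr

/-!
# The functional which vanishes on the ideal of two linear forms and the squares
-/

set_option autoImplicit false

open Finset MvPolynomial

namespace Pool.Agent.U354.Sqf

variable {n : ℕ} {K : Type*} [Field K]

/-- Values on monomials. -/
noncomputable def psi (a t : Fin n → K) (k : ℕ) (u : Fin n →₀ ℕ) : K :=
  if (∀ i, u i ≤ 1) ∧ u.support.card = k then wt a t u.support else 0

/-- The functional. -/
noncomputable def phi (a t : Fin n → K) (k : ℕ) : MvPolynomial (Fin n) K →ₗ[K] K :=
  (MvPolynomial.basisMonomials (Fin n) K).constr K (psi a t k)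

lemma phi_monomial (a t : Fin n → K) (k : ℕ) (u : Fin n →₀ ℕ) (c : K) :
    phi a t k (monomial u c) = c * psi a t k u := by
  have h : monomial u c = c • (MvPolynomial.basisMonomials (Fin n) K) u := by
    rw [MvPolynomial.coe_basisMonomials, smul_monomial, smul_eq_mul, mul_one]
  rw [h, map_smul, phi, Module.Basis.constr_basis, smul_eq_mul]

/-- It is enough to test the multiples by monomials. -/
lemma phi_mul_eq_zero (a t : Fin n → K) (k : ℕ) (g : MvPolynomial (Fin n) K)
    (h : ∀ u : Fin n →₀ ℕ, phi a t k (monomial u 1 * g) = 0) (H : MvPolynomial (Fin n) K) :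
    phi a t k (H * g) = 0 := by
  induction H using MvPolynomial.induction_on' with
  | monomial u c =>
    have : monomial u c * g = c • (monomial u 1 * g) := by
      rw [← smul_mul_assoc, smul_monomial, smul_eq_mul, mul_one]
    rw [this, map_smul, h, smul_zero]
  | add p q hp hq => rw [add_mul, map_add, hp, hq, add_zero]

lemma psi_single {a t : Fin n → K} {k : ℕ} (u : Fin n →₀ ℕ) (s : Fin n)
    (hu : ∀ i, u i ≤ 1) (hk : u.support.card + 1 = k) :
    psi a t k (u + Finsupp.single s 1) =
      if s ∈ u.supportᶜ then wt a t (insert s u.support) else 0 := by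
  by_cases hs : s ∈ u.support
  · have h1 : ¬ (∀ i, (u + Finsupp.single s 1 : Fin n →₀ ℕ) i ≤ 1) := by
      intro h
      have := h s
      rw [Finsupp.add_apply, Finsupp.single_eq_same] at this
      have h2 := Finsupp.mem_support_iff.1 hs
      omega
    rw [psi, if_neg (fun h => h1 h.1), if_neg]
    simp [hs]
  · have hs0 : u s = 0 := Finsupp.notMem_support_iff.1 hs
    have hsupp : (u + Finsupp.single s 1 : Fin n →₀ ℕ).support = insert s u.support := by
      ext i
      rw [Finsupp.mem_support_iff, Finsupp.add_apply, Finset.mem_insert, Finsupp.mem_support_iff]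
      by_cases his : i = s
      · subst his; simp
      · rw [Finsupp.single_eq_of_ne (Ne.symm (Ne.symm his))]; simp [his]
    have h1 : ∀ i, (u + Finsupp.single s 1 : Fin n →₀ ℕ) i ≤ 1 := by
      intro i
      rw [Finsupp.add_apply]
      by_cases his : i = s
      · subst his; rw [Finsupp.single_eq_same, hs0]
      · rw [Finsupp.single_eq_of_ne (Ne.symm (Ne.symm his))]; simpa using hu i
    rw [psi, hsupp, if_pos ⟨h1, by rw [card_insert_of_notMem hs]; exact hk⟩, if_pos]
    simpa using hs0

/-- The functional kills the multiples of a linear form `∑ a_i q(t_i) x_i`. -/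
lemma phi_linear {a t : Fin n → K} (ha : ∀ i, a i ≠ 0) (ht : Function.Injective t) {k : ℕ}
    (q : Polynomial K) (hq : q.natDegree ≤ 1) (hk : 2 * k + 1 ≤ n) (u : Fin n →₀ ℕ) :
    phi a t k (monomial u 1 * ∑ s, C (a s * q.eval (t s)) * X s) = 0 := by
  have h1 : monomial u 1 * ∑ s, C (a s * q.eval (t s)) * X s =
      ∑ s, monomial (u + Finsupp.single s 1) (a s * q.eval (t s)) := by
    rw [Finset.mul_sum]
    refine Finset.sum_congr rfl fun s _ => ?_
    rw [C_mul_X_eq_monomial, monomial_mul, one_mul]
  rw [h1, map_sum]
  simp only [phi_monomial]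
  by_cases hu : ∀ i, u i ≤ 1
  · by_cases hc : u.support.card + 1 = k
    · rw [Finset.sum_congr rfl fun s _ => by rw [psi_single u s hu hc]]
      have h2 : ∀ s ∈ (Finset.univ : Finset (Fin n)), a s * q.eval (t s) *
          (if s ∈ u.supportᶜ then wt a t (insert s u.support) else 0) =
          if s ∈ u.supportᶜ then a s * q.eval (t s) * wt a t (insert s u.support) else 0 := by
        intro s _
        split_ifs <;> simp
      rw [Finset.sum_congr rfl h2, ← Finset.sum_filter]
      have h3 : Finset.univ.filter (fun s => s ∈ u.supportᶜ) = u.supportᶜ := by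
        ext; simp
      rw [h3]
      exact wt_sum ha ht u.support q hq (by omega)
    · refine Finset.sum_eq_zero fun s _ => ?_
      rw [psi, if_neg, mul_zero]
      rintro ⟨h, h'⟩
      apply hc
      rw [← h']
      have hs : s ∉ u.support := by
        intro hs
        have := h s
        rw [Finsupp.add_apply, Finsupp.single_eq_same] at this
        have := Finsupp.mem_support_iff.1 hs
        omega
      rw [← card_insert_of_notMem hs]
      congr 1
      ext i
      rw [Finsupp.mem_support_iff, Finsupp.add_apply, Finset.mem_insert, Finsupp.mem_support_iff]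
      by_cases his : i = s
      · subst his; simp
      · rw [Finsupp.single_eq_of_ne (Ne.symm (Ne.symm his))]; simp [his]
  · push Not at hu
    obtain ⟨i, hi⟩ := hu
    refine Finset.sum_eq_zero fun s _ => ?_
    rw [psi, if_neg, mul_zero]
    rintro ⟨h, -⟩
    have := h i
    rw [Finsupp.add_apply] at this
    omega

/-- The functional kills the multiples of the squares of the variables. -/
lemma phi_sq (a t : Fin n → K) (k : ℕ) (i : Fin n) (u : Fin n →₀ ℕ) :
    phi a t k (monomial u 1 * X i ^ 2) = 0 := by
  rw [X_pow_eq_monomial, monomial_mul, phi_monomial, psi, if_neg, mul_zero]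
  rintro ⟨h, -⟩
  have := h i
  rw [Finsupp.add_apply, Finsupp.single_eq_same] at this
  omega

/-- The functional kills the multiples of polynomials with all monomials of degree larger
than `k`. -/
lemma phi_high (a t : Fin n → K) (k : ℕ) (g : MvPolynomial (Fin n) K)
    (hg : ∀ v ∈ g.support, k < v.degree) (u : Fin n →₀ ℕ) :
    phi a t k (monomial u 1 * g) = 0 := by
  rw [g.as_sum, Finset.mul_sum, map_sum]
  refine Finset.sum_eq_zero fun v hv => ?_
  rw [monomial_mul, phi_monomial, psi, if_neg, mul_zero]
  rintro ⟨h, h'⟩
  have h1 := hg v hv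
  have h2 : (u + v).degree = (u + v).support.card := by
    rw [Finsupp.degree_apply, Finset.card_eq_sum_ones]
    refine Finset.sum_congr rfl fun i hi => ?_
    have := h i
    have := Finsupp.mem_support_iff.1 hi
    omega
  have h3 : (u + v).degree = u.degree + v.degree := map_add _ _ _
  omega

/-- The functional does not kill the square-free monomials of degree `k`. -/
lemma phi_ne {a t : Fin n → K} (ha : ∀ i, a i ≠ 0) (ht : Function.Injective t) {k : ℕ}
    (S : Finset (Fin n)) (hS : S.card = k) : phi a t k (∏ i ∈ S, X i) ≠ 0 := by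
  have h : (∏ i ∈ S, X i : MvPolynomial (Fin n) K) =
      monomial (∑ i ∈ S, Finsupp.single i 1) 1 := by
    rw [monomial_sum_one]
    rfl
  have hv : ∀ j, (∑ i ∈ S, Finsupp.single i 1 : Fin n →₀ ℕ) j = if j ∈ S then 1 else 0 := by
    intro j
    rw [Finsupp.finsetSum_apply]
    simp [Finsupp.single_apply]
  have hsupp : (∑ i ∈ S, Finsupp.single i 1 : Fin n →₀ ℕ).support = S := by
    ext j
    rw [Finsupp.mem_support_iff, hv]
    simp
  rw [h, phi_monomial, psi, if_pos, one_mul, hsupp]
  · exact wt_ne_zero ha ht S
  · refine ⟨fun j => ?_, by rw [hsupp, hS]⟩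
    rw [hv]
    split_ifs <;> simp

end Pool.Agent.U354.Sqf
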