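import Mathlib

/-!
# A vanishing identity for square-free multi-affine forms (Lagrange interpolation)
-/

set_option autoImplicit false

open Finset

namespace Pool.Agent.U354.Sqf

variable {n : ℕ} {K : Type*} [Field K]

/-- The weight of a set of variables. -/
noncomputable def wt (a t : Fin n → K) (S : Finset (Fin n)) : K :=
  (∏ i ∈ S, (a i)⁻¹) * ∏ i ∈ S, ∏ j ∈ Sᶜ, (t i - t j)⁻¹

lemma wt_ne_zero {a t : Fin n → K} (ha : ∀ i, a i ≠ 0) (ht : Function.Injective t)
    (S : Finset (Fin n)) : wt a t S ≠ 0 := by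
  unfold wt
  refine mul_ne_zero (prod_ne_zero_iff.2 fun i _ => inv_ne_zero (ha i))
    (prod_ne_zero_iff.2 fun i hi => prod_ne_zero_iff.2 fun j hj => inv_ne_zero ?_)
  rw [sub_ne_zero]
  intro h
  have := ht h
  subst this
  exact (Finset.mem_compl.1 hj) hi

lemma wt_insert {a t : Fin n → K} (ha : ∀ i, a i ≠ 0) (ht : Function.Injective t)
    (R : Finset (Fin n)) {s : Fin n} (hs : s ∉ R) :
    a s * wt a t (insert s R) = (∏ i ∈ R, (a i)⁻¹) * (∏ i ∈ R, ∏ j ∈ Rᶜ, (t i - t j)⁻¹) *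
      ((∏ i ∈ R, (t i - t s)) / ∏ j ∈ Rᶜ.erase s, (t s - t j)) := by
  unfold wt
  have hc : (insert s R)ᶜ = Rᶜ.erase s := by
    ext x; simp [Finset.mem_compl, Finset.mem_erase]
  rw [prod_insert hs, prod_insert hs, hc]
  have hsc : s ∈ Rᶜ := Finset.mem_compl.2 hs
  have h1 : ∀ i ∈ R, ∏ j ∈ Rᶜ.erase s, (t i - t j)⁻¹ =
      (t i - t s) * ∏ j ∈ Rᶜ, (t i - t j)⁻¹ := by
    intro i hi
    rw [← Finset.mul_prod_erase _ _ hsc, ← mul_assoc, mul_inv_cancel₀, one_mul]
    rw [sub_ne_zero]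
    intro h
    exact hs (ht h ▸ hi)
  rw [prod_congr rfl h1, prod_mul_distrib, prod_inv_distrib (s := Rᶜ.erase s), div_eq_mul_inv]
  have := ha s
  field_simp

/-- The vanishing identity. -/
lemma wt_sum {a t : Fin n → K} (ha : ∀ i, a i ≠ 0) (ht : Function.Injective t)
    (R : Finset (Fin n)) (q : Polynomial K) (hq : q.natDegree ≤ 1)
    (hR : 2 * R.card + 3 ≤ n) :
    ∑ s ∈ Rᶜ, a s * q.eval (t s) * wt a t (insert s R) = 0 := by
  classical
  set P : Polynomial K := q * ∏ i ∈ R, (Polynomial.C (t i) - Polynomial.X) with hP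
  have hcard : Rᶜ.card = n - R.card := by rw [Finset.card_compl, Fintype.card_fin]
  have hPd : P.natDegree ≤ 1 + R.card := by
    refine (Polynomial.natDegree_mul_le).trans (Nat.add_le_add hq ?_)
    refine (Polynomial.natDegree_prod_le _ _).trans ?_
    refine (Finset.sum_le_sum (g := fun _ => 1) fun i _ => ?_).trans (by simp)
    refine (Polynomial.natDegree_sub_le _ _).trans ?_
    simp
  have hdeg : P.degree < (Rᶜ.card : ℕ) := by
    refine lt_of_le_of_lt Polynomial.degree_le_natDegree ?_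
    rw [hcard]
    exact_mod_cast (by omega : P.natDegree < n - R.card)
  have key := Lagrange.coeff_eq_sum (s := Rᶜ) (v := t) ht.injOn hdeg
  have h0 : P.coeff (Rᶜ.card - 1) = 0 := by
    apply Polynomial.coeff_eq_zero_of_natDegree_lt
    rw [hcard]
    omega
  rw [h0] at key
  have h2 : ∀ s ∈ Rᶜ, a s * q.eval (t s) * wt a t (insert s R) =
      (∏ i ∈ R, (a i)⁻¹) * (∏ i ∈ R, ∏ j ∈ Rᶜ, (t i - t j)⁻¹) *
        (P.eval (t s) / ∏ j ∈ Rᶜ.erase s, (t s - t j)) := by
    intro s hs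
    have h3 := wt_insert ha ht R (Finset.mem_compl.1 hs)
    have h4 : P.eval (t s) = q.eval (t s) * ∏ i ∈ R, (t i - t s) := by
      rw [hP, Polynomial.eval_mul, Polynomial.eval_prod]
      simp
    rw [h4, mul_right_comm, h3]
    ring
  rw [Finset.sum_congr rfl h2, ← Finset.mul_sum, ← key, mul_zero]

end Pool.Agent.U354.Sqf
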